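import Mathlib

set_option autoImplicit false

/-!
# Free algebras over commutative rings
-/

namespace Pool.Agent.Y861.GoodR

universe u v

/-- the free algebra, as a monoid algebra -/
abbrev FR (R : Type u) [CommRing R] (n : ℕ) := MonoidAlgebra R (FreeMonoid (Fin n))

section basic

variable {R : Type u} [CommRing R] {n : ℕ}

/-- the generators -/
noncomputable def gx (j : Fin n) : FR R n := MonoidAlgebra.single (FreeMonoid.of j) 1

/-- the monomials -/
noncomputable def mon (w : FreeMonoid (Fin n)) : FR R n := MonoidAlgebra.single w 1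

lemma mon_mul (v w : FreeMonoid (Fin n)) : (mon (v * w) : FR R n) = mon v * mon w := by
  rw [mon, mon, mon, MonoidAlgebra.single_mul_single, one_mul]

lemma mon_of (j : Fin n) : (mon (FreeMonoid.of j) : FR R n) = gx j := rfl

lemma mon_one : (mon 1 : FR R n) = 1 := rfl

lemma single_eq (w : FreeMonoid (Fin n)) (c : R) :
    (MonoidAlgebra.single w c : FR R n) = c • mon w := by
  rw [mon, MonoidAlgebra.smul_single, smul_eq_mul, mul_one]

lemma FR_induction {P : FR R n → Prop} (a : FR R n) (h0 : P 0)
    (hadd : ∀ x y, P x → P y → P (x + y)) (hmon : ∀ (w : FreeMonoid (Fin n)) (c : R),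
      P (c • mon w)) : P a :=
  MonoidAlgebra.induction_linear a h0 hadd (fun w c => by rw [single_eq]; exact hmon w c)

/-- decomposition of an element as a sum of monomials -/
lemma FR_sum (a : FR R n) : a = ∑ w ∈ a.coeff.support, a.coeff w • mon w := by
  conv_lhs => rw [← MonoidAlgebra.sum_coeff_single a]
  rw [Finsupp.sum]
  apply Finset.sum_congr rfl
  intro w _
  rw [single_eq]

/-- order at least `m` -/
def Ord (m : ℕ) (a : FR R n) : Prop := ∀ w : FreeMonoid (Fin n), w.length < m → a.coeff w = 0

/-- degree at most `d` -/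
def Deg (d : ℕ) (a : FR R n) : Prop := ∀ w : FreeMonoid (Fin n), d < w.length → a.coeff w = 0

lemma Ord.add {m : ℕ} {a b : FR R n} (ha : Ord m a) (hb : Ord m b) : Ord m (a + b) := by
  intro w hw
  rw [MonoidAlgebra.coeff_add, Finsupp.add_apply, ha w hw, hb w hw, add_zero]

lemma Ord.zero {m : ℕ} : Ord m (0 : FR R n) := fun _ _ => rfl

lemma Ord.smul {m : ℕ} (c : R) {a : FR R n} (ha : Ord m a) : Ord m (c • a) := by
  intro w hw
  rw [MonoidAlgebra.coeff_smul, Finsupp.smul_apply, ha w hw, smul_zero]

lemma Ord.neg {m : ℕ} {a : FR R n} (ha : Ord m a) : Ord m (-a) := by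
  intro w hw
  rw [MonoidAlgebra.coeff_neg, Finsupp.neg_apply, ha w hw, neg_zero]

lemma Ord.mono {m m' : ℕ} (h : m ≤ m') {a : FR R n} (ha : Ord m' a) : Ord m a :=
  fun w hw => ha w (by omega)

lemma Ord.all (a : FR R n) : Ord 0 a := fun w hw => by omega

lemma Ord.mul {p q : ℕ} {a b : FR R n} (ha : Ord p a) (hb : Ord q b) :
    Ord (p + q) (a * b) := by
  classical
  intro w hw
  rw [MonoidAlgebra.coeff_mul, Finsupp.sum]
  apply Finset.sum_eq_zero
  intro x hx
  rw [Finsupp.sum]
  apply Finset.sum_eq_zero
  intro y hy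
  rw [if_neg]
  rintro rfl
  rw [FreeMonoid.length_mul] at hw
  rcases Nat.lt_or_ge x.length p with h | h
  · exact (Finsupp.mem_support_iff.mp hx) (ha x h)
  · exact (Finsupp.mem_support_iff.mp hy) (hb y (by omega))

lemma Ord.mon (w : FreeMonoid (Fin n)) {m : ℕ} (h : m ≤ w.length) :
    Ord m (mon w : FR R n) := by
  intro v hv
  rw [Pool.Agent.Y861.GoodR.mon, MonoidAlgebra.coeff_single, Finsupp.single_eq_of_ne]
  rintro rfl
  omega

lemma Deg.zero {d : ℕ} : Deg d (0 : FR R n) := fun _ _ => rfl

lemma Deg.add {d : ℕ} {a b : FR R n} (ha : Deg d a) (hb : Deg d b) : Deg d (a + b) := by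
  intro w hw
  rw [MonoidAlgebra.coeff_add, Finsupp.add_apply, ha w hw, hb w hw, add_zero]

lemma Deg.smul {d : ℕ} (c : R) {a : FR R n} (ha : Deg d a) : Deg d (c • a) := by
  intro w hw
  rw [MonoidAlgebra.coeff_smul, Finsupp.smul_apply, ha w hw, smul_zero]

lemma Deg.mono {d e : ℕ} (h : d ≤ e) {a : FR R n} (ha : Deg d a) : Deg e a :=
  fun w hw => ha w (by omega)

lemma Deg.mul {p q : ℕ} {a b : FR R n} (ha : Deg p a) (hb : Deg q b) :
    Deg (p + q) (a * b) := by
  classical
  intro w hw
  rw [MonoidAlgebra.coeff_mul, Finsupp.sum]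
  apply Finset.sum_eq_zero
  intro x hx
  rw [Finsupp.sum]
  apply Finset.sum_eq_zero
  intro y hy
  rw [if_neg]
  rintro rfl
  rw [FreeMonoid.length_mul] at hw
  rcases Nat.lt_or_ge p x.length with h | h
  · exact (Finsupp.mem_support_iff.mp hx) (ha x h)
  · exact (Finsupp.mem_support_iff.mp hy) (hb y (by omega))

lemma Deg.mon (w : FreeMonoid (Fin n)) : Deg w.length (mon w : FR R n) := by
  intro v hv
  rw [Pool.Agent.Y861.GoodR.mon, MonoidAlgebra.coeff_single, Finsupp.single_eq_of_ne]
  rintro rfl
  omega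

lemma exists_deg (a : FR R n) : ∃ d, Deg d a := by
  classical
  refine ⟨a.coeff.support.sup (fun w => w.length), fun w hw => ?_⟩
  by_contra h
  have : w.length ≤ a.coeff.support.sup (fun w => w.length) :=
    Finset.le_sup (f := fun w : FreeMonoid (Fin n) => w.length) (Finsupp.mem_support_iff.mpr h)
  omega

lemma eq_zero_of {d : ℕ} {a : FR R n} (h1 : Ord (d + 1) a) (h2 : Deg d a) : a = 0 := by
  ext w
  rcases Nat.lt_or_ge w.length (d + 1) with h | h
  · rw [h1 w h]; rfl
  · rw [h2 w (by omega)]; rfl

/-- constant term -/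
noncomputable def eps (R : Type u) [CommRing R] (n : ℕ) : FR R n →ₐ[R] R :=
  MonoidAlgebra.lift R R (FreeMonoid (Fin n)) (FreeMonoid.lift (fun _ => (0 : R)))

lemma eps_gx (j : Fin n) : eps R n (gx j) = 0 := by
  rw [eps, gx, MonoidAlgebra.lift_single, one_smul, FreeMonoid.lift_eval_of]

lemma hom_ext {B : Type v} [Ring B] [Algebra R B] {f g : FR R n →ₐ[R] B}
    (h : ∀ i, f (gx i) = g (gx i)) : f = g := by
  apply MonoidAlgebra.algHom_ext'
  · apply FreeMonoid.hom_eq
    intro i
    exact h i
  · ext

open Classical in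
lemma eps_mon (w : FreeMonoid (Fin n)) : eps R n (mon w) = if w = 1 then 1 else 0 := by
  induction w using FreeMonoid.inductionOn' with
  | one => rw [mon_one, map_one, if_pos rfl]
  | of_mul i w ih =>
    rw [mon_mul, mon_of, map_mul, eps_gx, zero_mul, if_neg]
    intro h
    have := congrArg FreeMonoid.length h
    rw [FreeMonoid.length_mul, FreeMonoid.length_of, FreeMonoid.length_one] at this
    omega

lemma eps_eq (a : FR R n) : eps R n a = a.coeff 1 := by
  classical
  induction a using FR_induction with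
  | h0 => simp
  | hadd x y hx hy => rw [map_add, hx, hy, MonoidAlgebra.coeff_add, Finsupp.add_apply]
  | hmon w c =>
    rw [map_smul, eps_mon, MonoidAlgebra.coeff_smul, Finsupp.smul_apply, mon,
      MonoidAlgebra.coeff_single, Finsupp.single_apply]

lemma ord_one_iff (a : FR R n) : Ord 1 a ↔ eps R n a = 0 := by
  rw [eps_eq]
  constructor
  · intro h
    exact h 1 (by rw [FreeMonoid.length_one]; omega)
  · intro h w hw
    have : w = 1 := FreeMonoid.length_eq_zero.1 (by omega)
    rw [this, h]

lemma Ord.map {m : ℕ} {a : FR R n} (ha : Ord m a) (α : FR R n →ₐ[R] FR R n)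
    (hα : ∀ i, Ord 1 (α (gx i))) : Ord m (α a) := by
  have hmon : ∀ w : FreeMonoid (Fin n), Ord w.length (α (Pool.Agent.Y861.GoodR.mon w)) := by
    intro w
    induction w using FreeMonoid.inductionOn' with
    | one => exact Ord.all _
    | of_mul i w ih =>
      rw [mon_mul, mon_of, map_mul, FreeMonoid.length_mul, FreeMonoid.length_of]
      exact (hα i).mul ih
  rw [FR_sum a, map_sum]
  have : ∀ (s : Finset (FreeMonoid (Fin n))), (∀ w ∈ s, m ≤ w.length) →
      Ord m (∑ w ∈ s, α (a.coeff w • Pool.Agent.Y861.GoodR.mon w)) := by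
    classical
    intro s
    induction s using Finset.induction_on with
    | empty => intro _; exact Ord.zero
    | insert v s hv ih =>
      intro h
      rw [Finset.sum_insert hv, map_smul]
      exact (((hmon v).mono (h v (Finset.mem_insert_self _ _))).smul _).add
        (ih (fun w hw => h w (Finset.mem_insert_of_mem hw)))
  apply this
  intro w hw
  by_contra hlt
  exact (Finsupp.mem_support_iff.mp hw) (ha w (by omega))

/-- translation by the point `p` -/
noncomputable def tr (p : Fin n → R) : FR R n →ₐ[R] FR R n :=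
  MonoidAlgebra.lift R (FR R n) (FreeMonoid (Fin n))
    (FreeMonoid.lift (fun j => gx j + p j • (1 : FR R n)))

lemma tr_gx (p : Fin n → R) (j : Fin n) : tr p (gx j) = gx j + p j • (1 : FR R n) := by
  rw [tr, gx, MonoidAlgebra.lift_single, one_smul, FreeMonoid.lift_eval_of]
  rfl

lemma tr_tr (p q : Fin n → R) (h : ∀ j, p j + q j = 0) (a : FR R n) : tr p (tr q a) = a := by
  have : (tr p).comp (tr q) = AlgHom.id R (FR R n) := by
    apply hom_ext
    intro i
    rw [AlgHom.comp_apply, tr_gx, map_add, map_smul, map_one, tr_gx, add_assoc, ← add_smul, h,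
      zero_smul, add_zero]
    rfl
  exact congrArg (fun f : FR R n →ₐ[R] FR R n => f a) this

lemma Deg.tr {d : ℕ} {a : FR R n} (ha : Deg d a) (p : Fin n → R) : Deg d (tr p a) := by
  have hmon : ∀ w : FreeMonoid (Fin n), Deg w.length (Pool.Agent.Y861.GoodR.tr p (Pool.Agent.Y861.GoodR.mon w)) := by
    intro w
    induction w using FreeMonoid.inductionOn' with
    | one =>
      rw [mon_one, map_one]
      exact Deg.mon (1 : FreeMonoid (Fin n))
    | of_mul i w ih =>
      rw [mon_mul, mon_of, map_mul, FreeMonoid.length_mul, FreeMonoid.length_of, tr_gx]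
      refine Deg.mul ?_ ih
      have h1 : Deg 1 (gx i : FR R n) := Deg.mon (FreeMonoid.of i)
      have h2 : Deg 0 (1 : FR R n) := Deg.mon (1 : FreeMonoid (Fin n))
      exact h1.add ((h2.smul _).mono (by omega))
  rw [FR_sum a, map_sum]
  have : ∀ (s : Finset (FreeMonoid (Fin n))), (∀ w ∈ s, w.length ≤ d) →
      Deg d (∑ w ∈ s, Pool.Agent.Y861.GoodR.tr p (a.coeff w • Pool.Agent.Y861.GoodR.mon w)) := by
    classical
    intro s
    induction s using Finset.induction_on with
    | empty => intro _; exact Deg.zero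
    | insert v s hv ih =>
      intro h
      rw [Finset.sum_insert hv, map_smul]
      exact (((hmon v).mono (h v (Finset.mem_insert_self _ _))).smul _).add
        (ih (fun w hw => h w (Finset.mem_insert_of_mem hw)))
  apply this
  intro w hw
  by_contra hlt
  exact (Finsupp.mem_support_iff.mp hw) (ha w (by omega))

lemma hom_sub_ord {m : ℕ} (f g : FR R n →ₐ[R] FR R n)
    (h : ∀ i, Ord m (f (gx i) - g (gx i))) (a : FR R n) : Ord m (f a - g a) := by
  induction a using FR_induction with
  | h0 => rw [map_zero, map_zero, sub_zero]; exact Ord.zero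
  | hadd x y hx hy =>
    have : f (x + y) - g (x + y) = (f x - g x) + (f y - g y) := by
      rw [map_add, map_add]; abel
    rw [this]
    exact hx.add hy
  | hmon w c =>
    rw [map_smul, map_smul, ← smul_sub]
    apply Ord.smul
    induction w using FreeMonoid.inductionOn' with
    | one => rw [mon_one, map_one, map_one, sub_self]; exact Ord.zero
    | of_mul i w ih =>
      have : f (mon (FreeMonoid.of i * w)) - g (mon (FreeMonoid.of i * w))
          = f (gx i) * (f (mon w) - g (mon w)) + (f (gx i) - g (gx i)) * g (mon w) := by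
        rw [mon_mul, mon_of, map_mul, map_mul, mul_sub, sub_mul]
        abel
      rw [this]
      have h1 := (Ord.all (f (gx i))).mul ih
      have h2 := (h i).mul (Ord.all (g (mon w)))
      rw [zero_add] at h1
      rw [add_zero] at h2
      exact h1.add h2

/-- approximation by automorphisms, at a moving base point -/
def Approx (φ : FR R n →ₐ[R] FR R n) : Prop :=
  ∀ m : ℕ, ∃ (p : Fin n → R) (α : FR R n ≃ₐ[R] FR R n), ∀ i, Ord m (tr p (φ (gx i) - α (gx i)))

/-- endomorphisms which are approximable by automorphisms are injective, over every ring -/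
theorem injective_of_approx (φ : FR R n →ₐ[R] FR R n) (happ : Approx φ) :
    Function.Injective φ := by
  rw [injective_iff_map_eq_zero]
  intro h hh
  obtain ⟨d, hd⟩ := exists_deg h
  obtain ⟨p, α, hα⟩ := happ (d + 1)
  let p' : Fin n → R := fun j => -p j
  have hpp : ∀ j, p j + p' j = 0 := fun j => by simp [p']
  have hpp' : ∀ j, p' j + p j = 0 := fun j => by simp [p']
  let q : Fin n → R := fun j => eps R n (tr p (α (gx j)))
  let q' : Fin n → R := fun j => -q j
  have hqq' : ∀ j, q' j + q j = 0 := fun j => by simp [q']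
  have hα1 : (eps R n).comp (tr q)
      = ((eps R n).comp (tr p)).comp (α : FR R n →ₐ[R] FR R n) := by
    apply hom_ext
    intro i
    show eps R n (tr q (gx i)) = eps R n (tr p (α (gx i)))
    rw [tr_gx, map_add, eps_gx, map_smul, map_one, zero_add, smul_eq_mul, mul_one]
  let β : FR R n →ₐ[R] FR R n :=
    ((tr q).comp (α.symm : FR R n →ₐ[R] FR R n)).comp (tr p')
  have hβ : ∀ i, Ord 1 (β (gx i)) := by
    intro i
    rw [ord_one_iff]
    have h1 := congrArg (fun g : FR R n →ₐ[R] R => g (α.symm (tr p' (gx i)))) hα1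
    simp only [AlgHom.comp_apply] at h1
    have h2 : (α : FR R n →ₐ[R] FR R n) (α.symm (tr p' (gx i))) = tr p' (gx i) :=
      α.apply_symm_apply _
    rw [h2, tr_tr p p' hpp, eps_gx] at h1
    exact h1
  have h3 : Ord (d + 1) (tr p (φ h) - tr p (α h)) :=
    hom_sub_ord ((tr p).comp φ) ((tr p).comp (α : FR R n →ₐ[R] FR R n)) (fun i => by
      have := hα i
      rw [map_sub] at this
      exact this) h
  rw [hh, map_zero, zero_sub] at h3
  have h4 : Ord (d + 1) (tr p (α h)) := by
    have := h3.neg
    rwa [neg_neg] at this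
  have h5 : Ord (d + 1) (tr q h) := by
    have h6 := h4.map β hβ
    have h7 : β (tr p (α h)) = tr q h := by
      show tr q (α.symm (tr p' (tr p (α h)))) = tr q h
      rw [tr_tr p' p hpp', α.symm_apply_apply]
    rwa [h7] at h6
  have h9 : tr q h = 0 := eq_zero_of h5 (hd.tr q)
  rw [← tr_tr q' q hqq' h, h9, map_zero]

end basic

end Pool.Agent.Y861.GoodR
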