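import Pool.Agent.Y861.GoodR.Base
import Pool.Agent.H193R3.Final

set_option autoImplicit false

/-!
# Base change, and the passage from fields to all commutative rings
-/

namespace Pool.Agent.Y861.GoodR

universe u v

section change

variable {R : Type u} [CommRing R] {S : Type v} [CommRing S] {n : ℕ} (f : R →+* S)

/-- base change of elements -/
noncomputable def bc : FR R n →+* FR S n := MonoidAlgebra.mapRingHom (FreeMonoid (Fin n)) f

lemma bc_coeff (a : FR R n) (w : FreeMonoid (Fin n)) : (bc f a).coeff w = f (a.coeff w) :=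
  MonoidAlgebra.coeff_mapRingHom f a w

lemma bc_mon (w : FreeMonoid (Fin n)) : bc f (mon w : FR R n) = mon w := by
  rw [bc, mon, MonoidAlgebra.mapRingHom_single, map_one]
  rfl

lemma bc_gx (j : Fin n) : bc f (gx j : FR R n) = gx j := bc_mon f _

lemma bc_smul (c : R) (a : FR R n) : bc f (c • a) = f c • bc f a := by
  ext w
  rw [bc_coeff, MonoidAlgebra.coeff_smul, MonoidAlgebra.coeff_smul, Finsupp.smul_apply,
    Finsupp.smul_apply, bc_coeff, smul_eq_mul, smul_eq_mul, map_mul]

/-- base change of endomorphisms -/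
noncomputable def bh (φ : FR R n →ₐ[R] FR R n) : FR S n →ₐ[S] FR S n :=
  MonoidAlgebra.lift S (FR S n) (FreeMonoid (Fin n)) (FreeMonoid.lift (fun j => bc f (φ (gx j))))

lemma bh_gx (φ : FR R n →ₐ[R] FR R n) (j : Fin n) : bh f φ (gx j) = bc f (φ (gx j)) := by
  rw [bh, gx, MonoidAlgebra.lift_single, one_smul, FreeMonoid.lift_eval_of]

lemma bh_bc (φ : FR R n →ₐ[R] FR R n) (a : FR R n) : bh f φ (bc f a) = bc f (φ a) := by
  induction a using FR_induction with
  | h0 => simp
  | hadd x y hx hy => rw [map_add, map_add, map_add, map_add, hx, hy]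
  | hmon w c =>
    rw [bc_smul, map_smul, map_smul, bc_smul]
    congr 1
    induction w using FreeMonoid.inductionOn' with
    | one => rw [mon_one, map_one, map_one, map_one, map_one]
    | of_mul i w ih => rw [mon_mul, mon_of, map_mul, map_mul, map_mul, map_mul, ih, bc_gx, bh_gx]

lemma bh_comp (φ ψ : FR R n →ₐ[R] FR R n) : (bh f φ).comp (bh f ψ) = bh f (φ.comp ψ) := by
  apply hom_ext
  intro i
  rw [AlgHom.comp_apply, bh_gx, bh_bc, bh_gx]
  rfl

lemma bh_id : bh f (AlgHom.id R (FR R n)) = AlgHom.id S (FR S n) := by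
  apply hom_ext
  intro i
  rw [bh_gx]
  exact bc_gx f i

/-- base change of automorphisms -/
noncomputable def be (α : FR R n ≃ₐ[R] FR R n) : FR S n ≃ₐ[S] FR S n :=
  AlgEquiv.ofAlgHom (bh f (α : FR R n →ₐ[R] FR R n)) (bh f (α.symm : FR R n →ₐ[R] FR R n))
    (by
      rw [bh_comp]
      have : (α : FR R n →ₐ[R] FR R n).comp (α.symm : FR R n →ₐ[R] FR R n) = AlgHom.id R _ := by
        exact AlgHom.ext fun a => α.apply_symm_apply a
      rw [this, bh_id])
    (by
      rw [bh_comp]
      have : (α.symm : FR R n →ₐ[R] FR R n).comp (α : FR R n →ₐ[R] FR R n) = AlgHom.id R _ := by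
        exact AlgHom.ext fun a => α.symm_apply_apply a
      rw [this, bh_id])

lemma be_gx (α : FR R n ≃ₐ[R] FR R n) (j : Fin n) : be f α (gx j) = bc f (α (gx j)) :=
  bh_gx f (α : FR R n →ₐ[R] FR R n) j

lemma bh_tr (p : Fin n → R) : bh f (tr p) = tr (fun j => f (p j)) := by
  apply hom_ext
  intro i
  rw [bh_gx, tr_gx, tr_gx, map_add, bc_gx, bc_smul, map_one]

lemma Ord.bc {m : ℕ} {a : FR R n} (ha : Ord m a) : Ord m (bc f a) := by
  intro w hw
  rw [bc_coeff, ha w hw, map_zero]

theorem Approx.bh {φ : FR R n →ₐ[R] FR R n} (h : Approx φ) : Approx (bh f φ) := by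
  intro m
  obtain ⟨p, α, hα⟩ := h m
  refine ⟨fun j => f (p j), be f α, fun i => ?_⟩
  rw [bh_gx, be_gx, ← map_sub, ← bh_tr, bh_bc]
  exact (hα i).bc f

end change

section field

open Pool.Agent.H193R3 in
/-- the case of a field (starting result) -/
theorem surjective_field {K : Type u} [Field K] {n : ℕ} (φ : FR K n →ₐ[K] FR K n) (h : Approx φ) :
    Function.Surjective φ :=
  surj_of_approx' φ h

end field

section domain

variable {R : Type u} [CommRing R] {n : ℕ}

/-- all coefficients in the ideal -/
def InI (I : Ideal R) (a : FR R n) : Prop := ∀ w, a.coeff w ∈ I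

lemma InI.add {I : Ideal R} {a b : FR R n} (ha : InI I a) (hb : InI I b) : InI I (a + b) := by
  intro w
  rw [MonoidAlgebra.coeff_add, Finsupp.add_apply]
  exact I.add_mem (ha w) (hb w)

lemma InI.zero {I : Ideal R} : InI I (0 : FR R n) := fun _ => I.zero_mem

lemma InI.smul {I : Ideal R} (c : R) {a : FR R n} (ha : InI I a) : InI I (c • a) := by
  intro w
  rw [MonoidAlgebra.coeff_smul, Finsupp.smul_apply]
  exact I.mul_mem_left c (ha w)

lemma InI.neg {I : Ideal R} {a : FR R n} (ha : InI I a) : InI I (-a) := by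
  intro w
  rw [MonoidAlgebra.coeff_neg, Finsupp.neg_apply]
  exact I.neg_mem (ha w)

lemma InI.mono {I J : Ideal R} (h : I ≤ J) {a : FR R n} (ha : InI I a) : InI J a :=
  fun w => h (ha w)

lemma inI_iff_bc (I : Ideal R) (a : FR R n) : InI I a ↔ bc (Ideal.Quotient.mk I) a = 0 := by
  constructor
  · intro h
    ext w
    rw [bc_coeff]
    exact Ideal.Quotient.eq_zero_iff_mem.2 (h w)
  · intro h w
    rw [← Ideal.Quotient.eq_zero_iff_mem, ← bc_coeff, h]
    rfl

lemma InI.mul_left {I : Ideal R} {a : FR R n} (b : FR R n) (ha : InI I a) : InI I (b * a) := by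
  rw [inI_iff_bc] at ha ⊢
  rw [map_mul, ha, mul_zero]

lemma InI.mul_right {I : Ideal R} {a : FR R n} (b : FR R n) (ha : InI I a) : InI I (a * b) := by
  rw [inI_iff_bc] at ha ⊢
  rw [map_mul, ha, zero_mul]

/-- surjectivity modulo the ideal `I` -/
def SurI (φ : FR R n →ₐ[R] FR R n) (I : Ideal R) : Prop := ∀ j, ∃ a, InI I (φ a - gx j)

lemma SurI.all {φ : FR R n →ₐ[R] FR R n} {I : Ideal R} (h : SurI φ I) (b : FR R n) :
    ∃ a, InI I (φ a - b) := by
  induction b using FR_induction with
  | h0 => exact ⟨0, by rw [map_zero, sub_zero]; exact InI.zero⟩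
  | hadd x y hx hy =>
    obtain ⟨a, ha⟩ := hx
    obtain ⟨b, hb⟩ := hy
    refine ⟨a + b, ?_⟩
    have : φ (a + b) - (x + y) = (φ a - x) + (φ b - y) := by rw [map_add]; abel
    rw [this]
    exact ha.add hb
  | hmon w c =>
    have : ∃ a, InI I (φ a - mon w) := by
      induction w using FreeMonoid.inductionOn' with
      | one => exact ⟨1, by rw [map_one, mon_one, sub_self]; exact InI.zero⟩
      | of_mul i w ih =>
        obtain ⟨a, ha⟩ := h i
        obtain ⟨b, hb⟩ := ih
        refine ⟨a * b, ?_⟩
        have e : φ (a * b) - mon (FreeMonoid.of i * w)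
            = φ a * (φ b - mon w) + (φ a - gx i) * mon w := by
          rw [map_mul, mon_mul, mon_of, mul_sub, sub_mul]
          abel
        rw [e]
        exact (hb.mul_left _).add (ha.mul_right _)
    obtain ⟨a, ha⟩ := this
    exact ⟨c • a, by rw [map_smul, ← smul_sub]; exact ha.smul c⟩

/-- elements with coefficients in `(s)` are multiples of `s` -/
lemma exists_smul {s : R} {a : FR R n} (h : InI (Ideal.span {s}) a) : ∃ b, a = s • b := by
  classical
  have hc : ∀ w, ∃ c, a.coeff w = s * c := fun w => Ideal.mem_span_singleton'.1 (h w) |>.imp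
    fun c hc => by rw [← hc, mul_comm]
  choose c hc using hc
  refine ⟨∑ w ∈ a.coeff.support, c w • mon w, ?_⟩
  rw [Finset.smul_sum]
  conv_lhs => rw [FR_sum a]
  apply Finset.sum_congr rfl
  intro w _
  rw [smul_smul, ← hc]

/-- surjectivity over a domain -/
theorem surI_of_isDomain [IsDomain R] (φ : FR R n →ₐ[R] FR R n) (h : Approx φ) : SurI φ ⊥ := by
  classical
  intro j
  set K := FractionRing R
  set f : R →+* K := algebraMap R K
  have hf : Function.Injective f := IsFractionRing.injective R K
  have hfb : Function.Injective (bc f : FR R n →+* FR K n) := by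
    intro a b hab
    ext w
    apply hf
    rw [← bc_coeff, hab, bc_coeff]
  obtain ⟨h0, hh0⟩ := surjective_field (bh f φ) (h.bh f) (gx j)
  -- a common denominator
  obtain ⟨s, hs⟩ := IsLocalization.exist_integer_multiples (nonZeroDivisors R) h0.coeff.support
    (fun w => h0.coeff w)
  have hs0 : (s : R) ≠ 0 := nonZeroDivisors.ne_zero s.2
  have hc : ∀ w, ∃ c : R, f c = f s * h0.coeff w := by
    intro w
    by_cases hw : w ∈ h0.coeff.support
    · obtain ⟨c, hc⟩ := hs w hw
      exact ⟨c, by rw [hc, Algebra.smul_def]⟩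
    · exact ⟨0, by rw [Finsupp.notMem_support_iff.1 hw, map_zero, mul_zero]⟩
  choose c hc using hc
  set a : FR R n := ∑ w ∈ h0.coeff.support, c w • mon w with ha
  have hba : bc f a = f s • h0 := by
    rw [ha, map_sum]
    conv_rhs => rw [FR_sum h0, Finset.smul_sum]
    apply Finset.sum_congr rfl
    intro w _
    rw [bc_smul, bc_mon, smul_smul, hc]
  have h1 : φ a = (s : R) • gx j := by
    apply hfb
    rw [← bh_bc, hba, map_smul, hh0, bc_smul, bc_gx]
  -- reduction modulo `s`
  have h2 : InI (Ideal.span {(s : R)}) a := by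
    rw [inI_iff_bc]
    apply injective_of_approx _ (h.bh (Ideal.Quotient.mk (Ideal.span {(s : R)})))
    rw [bh_bc, h1, map_zero, ← inI_iff_bc]
    intro w
    rw [MonoidAlgebra.coeff_smul, Finsupp.smul_apply, smul_eq_mul, mul_comm]
    exact Ideal.mul_mem_left _ _ (Ideal.mem_span_singleton_self _)
  obtain ⟨b, hb⟩ := exists_smul h2
  refine ⟨b, ?_⟩
  have h3 : φ b = gx j := by
    rw [hb, map_smul] at h1
    ext w
    have h4 := congrArg (fun x : FR R n => x.coeff w) h1
    simp only [MonoidAlgebra.coeff_smul, Finsupp.smul_apply, smul_eq_mul] at h4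
    exact mul_left_cancel₀ hs0 h4
  rw [h3, sub_self]
  exact InI.zero

/-- surjectivity modulo a prime ideal -/
theorem surI_of_isPrime (φ : FR R n →ₐ[R] FR R n) (h : Approx φ) (P : Ideal R) (hP : P.IsPrime) :
    SurI φ P := by
  classical
  intro j
  obtain ⟨a, ha⟩ := surI_of_isDomain (bh (Ideal.Quotient.mk P) φ) (h.bh _) j
  have ha' : bh (Ideal.Quotient.mk P) φ a = gx j := by
    rw [← sub_eq_zero]
    ext w
    exact ha w
  -- lift `a`
  have hc : ∀ w, ∃ c : R, Ideal.Quotient.mk P c = a.coeff w := fun w =>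
    Ideal.Quotient.mk_surjective _
  choose c hc using hc
  refine ⟨∑ w ∈ a.coeff.support, c w • mon w, ?_⟩
  have hb : bc (Ideal.Quotient.mk P) (∑ w ∈ a.coeff.support, c w • mon w : FR R n) = a := by
    rw [map_sum]
    conv_rhs => rw [FR_sum a]
    apply Finset.sum_congr rfl
    intro w _
    rw [bc_smul, bc_mon, hc]
  rw [inI_iff_bc, map_sub, ← bh_bc, hb, ha', bc_gx, sub_self]

lemma isOka (φ : FR R n →ₐ[R] FR R n) : Ideal.IsOka (SurI φ) where
  top := fun _ => ⟨0, fun _ => Submodule.mem_top⟩
  oka := by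
    classical
    intro I a h1 h2 j
    obtain ⟨b, hb⟩ := h1 j
    have hc : ∀ w, ∃ i ∈ I, ∃ c, (φ b - gx j).coeff w = i + c * a := by
      intro w
      obtain ⟨i, hi, z, hz, e⟩ := Submodule.mem_sup.1 (hb w)
      obtain ⟨c, rfl⟩ := Ideal.mem_span_singleton'.1 hz
      exact ⟨i, hi, c, e.symm⟩
    choose i hi c hc using hc
    set S := (φ b - gx j).coeff.support
    set C : FR R n := ∑ w ∈ S, c w • mon w
    have h3 : InI I (φ b - gx j - a • C) := by
      have e : φ b - gx j - a • C = ∑ w ∈ S, i w • mon w := by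
        rw [FR_sum (φ b - gx j), Finset.smul_sum, ← Finset.sum_sub_distrib]
        apply Finset.sum_congr rfl
        intro w _
        rw [hc, smul_smul, ← sub_smul]
        congr 1
        ring
      rw [e]
      clear_value S
      clear e h1 h2 hb
      induction S using Finset.induction_on with
      | empty => exact InI.zero
      | insert v s hv ih =>
        rw [Finset.sum_insert hv]
        refine InI.add ?_ ih
        intro w
        rw [MonoidAlgebra.coeff_smul, Finsupp.smul_apply, smul_eq_mul]
        exact I.mul_mem_right _ (hi v)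
    obtain ⟨b', hb'⟩ := h2.all C
    refine ⟨b - a • b', ?_⟩
    have e : φ (b - a • b') - gx j = (φ b - gx j - a • C) - a • (φ b' - C) := by
      rw [map_sub, map_smul, smul_sub]
      abel
    rw [e, sub_eq_add_neg]
    refine h3.add (InI.neg ?_)
    intro w
    rw [MonoidAlgebra.coeff_smul, Finsupp.smul_apply, smul_eq_mul, mul_comm]
    exact Ideal.mem_colon_span_singleton.1 (hb' w)

/-- endomorphisms which are approximable by automorphisms are surjective, over every commutative ring -/
theorem surjective_of_approx (φ : FR R n →ₐ[R] FR R n) (h : Approx φ) : Function.Surjective φ := by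
  classical
  have key : SurI φ ⊥ := by
    refine Ideal.IsOka.forall_of_forall_prime' (isOka φ) ?_ (fun P hP => surI_of_isPrime φ h P hP) ⊥
    intro C hC hchain J hJ hs
    choose a ha using hs
    -- finitely many coefficients
    have hfin : ∀ T : Finset R, (∀ t ∈ T, t ∈ sSup C) → ∃ I ∈ C, ∀ t ∈ T, t ∈ I := by
      intro T
      induction T using Finset.induction_on with
      | empty => intro _; exact ⟨J, hJ, by simp⟩
      | insert t T ht ih =>
        intro hT
        obtain ⟨I, hI, h1⟩ := ih (fun t ht => hT t (Finset.mem_insert_of_mem ht))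
        obtain ⟨I', hI', h2⟩ := (Submodule.mem_sSup_of_directed ⟨J, hJ⟩ hchain.directedOn).1
          (hT t (Finset.mem_insert_self _ _))
        rcases hchain.total hI hI' with h3 | h3
        · refine ⟨I', hI', fun x hx => ?_⟩
          rcases Finset.mem_insert.1 hx with rfl | hx
          · exact h2
          · exact h3 (h1 x hx)
        · refine ⟨I, hI, fun x hx => ?_⟩
          rcases Finset.mem_insert.1 hx with rfl | hx
          · exact h3 h2
          · exact h1 x hx
    obtain ⟨I, hI, h1⟩ := hfin (Finset.univ.biUnion fun j =>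
      (φ (a j) - gx j).coeff.support.image fun w => (φ (a j) - gx j).coeff w) (by
        intro t ht
        simp only [Finset.mem_biUnion, Finset.mem_image] at ht
        obtain ⟨j, -, w, -, rfl⟩ := ht
        exact ha j w)
    refine ⟨I, hI, fun j => ⟨a j, fun w => ?_⟩⟩
    by_cases hw : w ∈ (φ (a j) - gx j).coeff.support
    · apply h1
      simp only [Finset.mem_biUnion, Finset.mem_image]
      exact ⟨j, Finset.mem_univ _, w, hw, rfl⟩
    · rw [Finsupp.notMem_support_iff.1 hw]
      exact I.zero_mem
  intro b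
  obtain ⟨a, ha⟩ := key.all b
  refine ⟨a, ?_⟩
  rw [← sub_eq_zero]
  ext w
  exact ha w

theorem bijective_of_approx (φ : FR R n →ₐ[R] FR R n) (h : Approx φ) : Function.Bijective φ :=
  ⟨injective_of_approx φ h, surjective_of_approx φ h⟩

end domain

end Pool.Agent.Y861.GoodR
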